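import Pool.Agent.Helper74.FP.Goals

/-!
# Project FP, F4: minor models of the factors give a minor model of the free products
-/

set_option autoImplicit false

namespace Pool.Agent.Helper37.FP

open Pool.Agent.Helper52.Wq2 Pool.Agent.Helper61.NW Pool.Agent.Helper74.FP Monoid

universe u

/-- A union of connected sets through a common point. -/
theorem conn_parts {V : Type*} {G : SimpleGraph V} {s : Set V} {r : V} (hr : r ∈ s)
    (h : ∀ x ∈ s, ∃ t ⊆ s, Conn G t ∧ r ∈ t ∧ x ∈ t) : Conn G s := by
  refine ⟨⟨r, hr⟩, ?_⟩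
  intro A hA hne hcl
  have key : ∀ t ⊆ s, Conn G t → ∀ a ∈ t, a ∈ A → t ⊆ A := by
    intro t hts ht a hat haA
    have := ht.2 (A ∩ t) Set.inter_subset_right ⟨a, haA, hat⟩ (by
      rintro b ⟨hbA, hbt⟩ c hc hbc
      exact ⟨hcl b hbA c (hts hc) hbc, hc⟩)
    exact this.trans Set.inter_subset_left
  obtain ⟨a, ha⟩ := hne
  have hrA : r ∈ A := by
    obtain ⟨t, hts, ht, hrt, hat⟩ := h a (hA ha)
    exact key t hts ht a hat ha hrt
  intro x hx
  obtain ⟨t, hts, ht, hrt, hxt⟩ := h x hx
  exact key t hts ht r hrt hrA hxt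

theorem cayL_adj {Γ : Type u} [Group Γ] {S : Set Γ} (a b : Γ) :
    (cayL S).Adj a b ↔ a ≠ b ∧ (b * a⁻¹ ∈ S ∨ a * b⁻¹ ∈ S) := by
  rw [cayL, SimpleGraph.fromRel_adj]

section core

variable {ι : Type} {A B : ι → Type u} [∀ i, Group (A i)] [∀ i, Group (B i)]

/-- Letterwise map of reduced words. -/
def fw (r : ∀ i, A i → B i) (hr : ∀ i a, a ≠ 1 → r i a ≠ 1) (w : CoprodI.Word A) :
    CoprodI.Word B where
  toList := w.toList.map (fun l => ⟨l.1, r l.1 l.2⟩)
  ne_one := by
    intro l hl
    rw [List.mem_map] at hl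
    obtain ⟨l', hl', rfl⟩ := hl
    exact hr _ _ (w.ne_one l' hl')
  chain_ne := by
    rw [List.isChain_map]
    exact w.chain_ne

variable {r : ∀ i, A i → B i} {hr : ∀ i a, a ≠ 1 → r i a ≠ 1}

theorem fw_fstIdx (w : CoprodI.Word A) : (fw r hr w).fstIdx = w.fstIdx := by
  show Option.map Sigma.fst
      (w.toList.map (fun l => (⟨l.1, r l.1 l.2⟩ : Σ i, B i))).head? =
    Option.map Sigma.fst w.toList.head?
  cases w.toList <;> rfl

theorem fw_inj (hinj : ∀ i, Function.Injective (r i)) : Function.Injective (fw r hr) := by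
  intro v w h
  have h' := congrArg CoprodI.Word.toList h
  have hm : Function.Injective (fun l : (Σ i, A i) => (⟨l.1, r l.1 l.2⟩ : Σ i, B i)) := by
    rintro ⟨i, a⟩ ⟨j, b⟩ hab
    have hij : i = j := congrArg Sigma.fst hab
    subst hij
    have h2 : r i a = r i b := eq_of_heq (Sigma.mk.inj hab).2
    rw [hinj i h2]
  exact CoprodI.Word.ext (List.map_injective_iff.mpr hm h')

theorem fw_rcons [∀ i, DecidableEq (A i)] (h1 : ∀ i, r i 1 = 1) {i : ι}
    (p : CoprodI.Word.Pair A i) :
    (fw r hr (CoprodI.Word.rcons p)).prod = CoprodI.of (r i p.head) * (fw r hr p.tail).prod := by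
  by_cases hm : p.head = 1
  · rw [CoprodI.Word.rcons, dif_pos hm, hm, h1, map_one, one_mul]
  · rw [CoprodI.Word.rcons, dif_neg hm]
    simp [fw, CoprodI.Word.prod, CoprodI.Word.cons]

theorem prod_inj : Function.Injective (CoprodI.Word.prod : CoprodI.Word B → CoprodI B) := by
  classical
  exact (CoprodI.Word.equiv (M := B)).symm.injective

theorem pair_unique {i : ι} {b b' : B i} {y y' : CoprodI.Word B} (hy : y.fstIdx ≠ some i)
    (hy' : y'.fstIdx ≠ some i)
    (h : CoprodI.of b * y.prod = CoprodI.of b' * y'.prod) : b = b' ∧ y = y' := by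
  classical
  have h2 : CoprodI.Word.rcons (⟨b, y, hy⟩ : CoprodI.Word.Pair B i) =
      CoprodI.Word.rcons ⟨b', y', hy'⟩ := by
    apply prod_inj
    rw [CoprodI.Word.prod_rcons, CoprodI.Word.prod_rcons]
    exact h
  have h3 := CoprodI.Word.rcons_inj h2
  exact ⟨congrArg CoprodI.Word.Pair.head h3, congrArg CoprodI.Word.Pair.tail h3⟩

theorem pair_cross {i j : ι} (hij : i ≠ j) {b : B i} {b' : B j} {y y' : CoprodI.Word B}
    (hy : y.fstIdx ≠ some i) (hy' : y'.fstIdx ≠ some j)
    (h : CoprodI.of b * y.prod = CoprodI.of b' * y'.prod) : b = 1 ∨ b' = 1 := by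
  by_contra hc
  push Not at hc
  have h2 : CoprodI.Word.cons b y hy hc.1 = CoprodI.Word.cons b' y' hy' hc.2 := by
    apply prod_inj
    rw [CoprodI.Word.prod_cons, CoprodI.Word.prod_cons]
    exact h
  have h3 := congrArg CoprodI.Word.fstIdx h2
  rw [CoprodI.Word.fstIdx_cons, CoprodI.Word.fstIdx_cons] at h3
  exact hij (Option.some.inj h3)

end core

/-- **F4.** -/
theorem f4 : F4Stmt.{u} := by
  classical
  intro ι A B _ _ S T V hS hT hV hV1
  have hex : ∀ i (a : A i), ∃ b ∈ V i a, a = 1 → b = 1 := by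
    intro i a
    by_cases ha : a = 1
    · subst ha
      exact ⟨1, hV1 i, fun _ => rfl⟩
    · obtain ⟨b, hb⟩ := ((hV i).1 a).1
      exact ⟨b, hb, fun h => absurd h ha⟩
  choose r hr0 hr1 using hex
  have hrone : ∀ i, r i 1 = 1 := fun i => hr1 i 1 rfl
  have hrne : ∀ i a, a ≠ 1 → r i a ≠ 1 := by
    intro i a ha h
    refine ha ((hV i).2.1 a 1 1 ?_ (hV1 i))
    rw [← h]
    exact hr0 i a
  have hrinj : ∀ i, Function.Injective (r i) := by
    intro i a b hab
    refine (hV i).2.1 a b (r i a) (hr0 i a) ?_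
    rw [hab]
    exact hr0 i b
  let F : CoprodI.Word A → CoprodI.Word B := fw r hrne
  have hFinj : Function.Injective F := fw_inj hrinj
  have hFst : ∀ w, (F w).fstIdx = w.fstIdx := fun w => fw_fstIdx w
  let hd : ∀ i, CoprodI.Word A → A i := fun i w => (CoprodI.Word.equivPair i w).head
  let tl : ∀ i : ι, CoprodI.Word A → CoprodI.Word A :=
    fun i w => (CoprodI.Word.equivPair i w).tail
  have htl : ∀ i w, (F (tl i w)).fstIdx ≠ some i := by
    intro i w
    rw [hFst]
    exact (CoprodI.Word.equivPair i w).fstIdx_ne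
  have hdec : ∀ i v w, hd i v = hd i w → tl i v = tl i w → v = w := by
    intro i v w h1 h2
    exact (CoprodI.Word.equivPair i).injective (CoprodI.Word.Pair.ext h1 h2)
  have hone : ∀ i w, hd i w = 1 → tl i w = w := by
    intro i w h
    have h1 := (CoprodI.Word.equivPair i).symm_apply_apply w
    rw [CoprodI.Word.equivPair_symm, CoprodI.Word.rcons, dif_pos h] at h1
    exact h1
  have hFdec : ∀ i w, (F w).prod = CoprodI.of (r i (hd i w)) * (F (tl i w)).prod := by
    intro i w
    have h1 := (CoprodI.Word.equivPair i).symm_apply_apply w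
    rw [CoprodI.Word.equivPair_symm] at h1
    have h2 := fw_rcons (r := r) (hr := hrne) hrone (CoprodI.Word.equivPair i w)
    rw [h1] at h2
    exact h2
  let part : ι → CoprodI.Word A → Set (CoprodI B) := fun i w =>
    (fun b : B i => CoprodI.of b * (F (tl i w)).prod) '' V i (hd i w)
  let U : CoprodI.Word A → Set (CoprodI B) := fun w => {x | x = (F w).prod ∨ ∃ i, x ∈ part i w}
  have hmem : ∀ i w, (F w).prod ∈ part i w := by
    intro i w
    exact ⟨r i (hd i w), hr0 i _, (hFdec i w).symm⟩
  have hlift : ∀ (i : ι) (y : CoprodI B) (b b' : B i), (cayL (T i)).Adj b b' →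
      (cayL (US T)).Adj (CoprodI.of b * y) (CoprodI.of b' * y) := by
    intro i y b b' h
    rw [cayL_adj] at h ⊢
    refine ⟨?_, ?_⟩
    · intro he
      exact h.1 (CoprodI.of_injective i (mul_right_cancel he))
    · rcases h.2 with h2 | h2
      · left
        refine ⟨i, _, h2, ?_⟩
        rw [map_mul, map_inv]
        group
      · right
        refine ⟨i, _, h2, ?_⟩
        rw [map_mul, map_inv]
        group
  have hpc : ∀ i w, Conn (cayL (US T)) (part i w) := by
    intro i w
    refine ((hV i).1 (hd i w)).image _ ?_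
    intro a _ b _ hab
    exact Or.inr (hlift i _ a b hab)
  have hsame : ∀ i v w x, x ∈ part i v → x ∈ part i w → v = w := by
    rintro i v w x ⟨b, hb, rfl⟩ ⟨b', hb', he⟩
    obtain ⟨h1, h2⟩ := pair_unique (htl i w) (htl i v) he
    subst h1
    exact hdec i v w ((hV i).2.1 _ _ _ hb hb') (hFinj h2).symm
  have hroot : ∀ i v (b : B i), b ∈ V i (hd i v) → b = 1 →
      CoprodI.of b * (F (tl i v)).prod = (F v).prod := by
    intro i v b hb h1
    have h2 : hd i v = 1 := by
      subst h1
      exact (hV i).2.1 _ _ _ hb (hV1 i)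
    rw [h1, map_one, one_mul, hone i v h2]
  have hcross : ∀ i j, i ≠ j → ∀ v w x, x ∈ part i v → x ∈ part j w →
      x = (F v).prod ∨ x = (F w).prod := by
    rintro i j hij v w x ⟨b, hb, rfl⟩ ⟨b', hb', he⟩
    rcases pair_cross hij.symm (htl j w) (htl i v) he with h | h
    · right
      rw [← he]
      exact hroot j w b' hb' h
    · left
      exact hroot i v b hb h
  have hdisj : ∀ v w x, x ∈ U v → x ∈ U w → v = w := by
    intro v w x hv hw
    rcases hv with hv | ⟨i, hi⟩
    · rcases hw with hw | ⟨j, hj⟩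
      · exact hFinj (prod_inj (hv.symm.trans hw))
      · refine hsame j v w x ?_ hj
        rw [hv]
        exact hmem j v
    · rcases hw with hw | ⟨j, hj⟩
      · refine hsame i v w x hi ?_
        rw [hw]
        exact hmem i w
      · by_cases hij : i = j
        · subst hij
          exact hsame i v w x hi hj
        · rcases hcross i j hij v w x hi hj with h | h
          · refine hsame j v w x ?_ hj
            rw [h]
            exact hmem j v
          · refine hsame i v w x hi ?_
            rw [h]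
            exact hmem i w
  have hedge : ∀ (i : ι) (s : A i), s ∈ S i → ∀ w : CoprodI.Word A,
      ∃ a ∈ U w, ∃ b ∈ U (CoprodI.of s • w), (cayL (US T)).Adj a b := by
    intro i s hs w
    have hadj : (cayL (S i)).Adj (hd i w) (s * hd i w) := by
      rw [cayL_adj]
      refine ⟨?_, Or.inl ?_⟩
      · intro he
        have h1 : s = 1 := by
          have := he.symm
          rwa [mul_eq_right] at this
        exact (hS i).2.2 (h1 ▸ hs)
      · rw [mul_inv_cancel_right]
        exact hs
    obtain ⟨a, ha, b, hb, hab⟩ := (hV i).2.2 _ _ hadj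
    have hp := CoprodI.Word.equivPair_smul_same s w
    have hh : hd i (CoprodI.of s • w) = s * hd i w := congrArg CoprodI.Word.Pair.head hp
    have ht : tl i (CoprodI.of s • w) = tl i w := by
      show (CoprodI.Word.equivPair i (CoprodI.of s • w)).tail = (CoprodI.Word.equivPair i w).tail
      rw [hp]
    refine ⟨_, Or.inr ⟨i, a, ha, rfl⟩, _, Or.inr ⟨i, b, ?_, rfl⟩, ?_⟩
    · rw [hh]
      exact hb
    · show (cayL (US T)).Adj (CoprodI.of a * (F (tl i w)).prod)
        (CoprodI.of b * (F (tl i (CoprodI.of s • w))).prod)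
      rw [ht]
      exact hlift i _ a b hab
  refine ⟨fun v => U (CoprodI.Word.equiv v), ?_, ?_, ?_⟩
  · intro v
    refine conn_parts (r := (F (CoprodI.Word.equiv v)).prod) (Or.inl rfl) ?_
    rintro x (hx | ⟨i, hi⟩)
    · refine ⟨{(F (CoprodI.Word.equiv v)).prod}, ?_, conn_singleton _ _, rfl, hx⟩
      rintro y hy
      exact Or.inl hy
    · exact ⟨part i (CoprodI.Word.equiv v), fun y hy => Or.inr ⟨i, hy⟩, hpc _ _, hmem _ _, hi⟩
  · intro v w x hv hw
    exact CoprodI.Word.equiv.injective (hdisj _ _ x hv hw)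
  · have hequiv : ∀ (i : ι) (s : A i) (v : CoprodI A),
        CoprodI.Word.equiv (CoprodI.of s * v) = CoprodI.of s • CoprodI.Word.equiv v := by
      intro i s v
      have hpe : ∀ x : CoprodI A, (CoprodI.Word.equiv x).prod = x := fun x =>
        CoprodI.Word.equiv.symm_apply_apply x
      apply prod_inj
      rw [hpe, CoprodI.Word.prod_smul, hpe]
    intro v w hvw
    rw [cayL_adj] at hvw
    rcases hvw.2 with ⟨i, s, hs, he⟩ | ⟨i, s, hs, he⟩
    · have hw : w = CoprodI.of s * v := by
        rw [← he]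
        group
      subst hw
      obtain ⟨a, ha, b, hb, hab⟩ := hedge i s hs (CoprodI.Word.equiv v)
      refine ⟨a, ha, b, ?_, hab⟩
      show b ∈ U (CoprodI.Word.equiv (CoprodI.of s * v))
      rw [hequiv]
      exact hb
    · have hv : v = CoprodI.of s * w := by
        rw [← he]
        group
      subst hv
      obtain ⟨a, ha, b, hb, hab⟩ := hedge i s hs (CoprodI.Word.equiv w)
      refine ⟨b, ?_, a, ha, hab.symm⟩
      show b ∈ U (CoprodI.Word.equiv (CoprodI.of s * w))
      rw [hequiv]
      exact hb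

end Pool.Agent.Helper37.FP
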