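import Pool.Agent.Helper74.FP.Goals2

/-!
# Project FP, F9: the union of two good classes is good
-/

set_option autoImplicit false

namespace Pool.Agent.Helper37.FP

open Pool.Agent.Helper52.Wq2 Pool.Agent.Helper61.NW Pool.Agent.Helper74.FP Monoid

universe u

/-- **F9.** One of the two classes contains infinitely many terms of the sequence. -/
theorem f9 : F9Stmt.{u} := by
  intro P Q hP hQ Γ _ S hS h
  have key : ∀ (R : ∀ (Γ : Type u) [Group Γ], Set Γ → Prop), Wqo.{u} R →
      {i | R (Γ i) (S i)}.Infinite → ∃ i j, i < j ∧ Mn (cay (S i)) (cay (S j)) := by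
    intro R hR hinf
    obtain ⟨φ, hφ, hmem⟩ : ∃ φ : ℕ → ℕ, StrictMono φ ∧ ∀ n, R (Γ (φ n)) (S (φ n)) :=
      ⟨Nat.nth (fun i => R (Γ i) (S i)), Nat.nth_strictMono hinf,
        fun n => Nat.nth_mem_of_infinite hinf n⟩
    obtain ⟨i, j, hij, hm⟩ := hR (fun n => Γ (φ n)) (fun n => S (φ n)) (fun n => hS (φ n)) hmem
    exact ⟨φ i, φ j, hφ hij, hm⟩
  by_cases hi : {i | P (Γ i) (S i)}.Infinite
  · exact key P hP hi
  · refine key Q hQ ?_
    intro hfin
    have hu : (Set.univ : Set ℕ).Finite :=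
      ((Set.not_infinite.mp hi).union hfin).subset (fun i _ => h i)
    exact Set.infinite_univ hu

end Pool.Agent.Helper37.FP
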